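import Pool.Agent.V11230.PinSched
import Pool.Agent.NPC.Dec

/-!
# Pinwheel scheduling with durations, divisible frequencies and low density

Let `F` be the smallest frequency and `P` the total duration of the jobs with frequency `F`.  An
instance with divisible frequencies and density at most `1 / 7` is feasible if and only if
`P + p ≤ F` for the duration `p` of every other job.

Necessity holds for all instances: look at the last executions of the jobs of frequency `F` before
some execution of the other job, and take the earliest one of them.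

Sufficiency: work in rounds.  Every round starts with the jobs of frequency `F`; a job of frequency
`F * k` (`k > 1`) is executed in the rounds of one residue class modulo `k`, after all jobs of
smaller frequency of the round.  Jobs longer than `(F - P) / 2` and other jobs get rounds in two
complementary sets; because of the low density there is always a free class.
-/

namespace Pool.Agent.NPC.V11230.DP

open Finset Pool.Agent.NPC Pool.Agent.V11230.DP

/-- An instance: the list of the jobs, each given by its frequency and its duration. -/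
abbrev Inst : Type := List (ℕ × ℕ)

/-- The conditions on an instance: there is a job, frequencies and durations are positive, the
frequencies are in increasing order. -/
def Valid (V : Inst) : Prop :=
  V ≠ [] ∧ (∀ x ∈ V, 0 < x.1 ∧ 0 < x.2) ∧ V.Pairwise (fun x y => x.1 ≤ y.1)

/-- Frequency divisibility: every frequency divides the next one. -/
def FreqDiv (V : Inst) : Prop := ∀ (i : ℕ) (h : i + 1 < V.length), V[i].1 ∣ V[i + 1].1

/-- The density. -/
def density (V : Inst) : ℚ := (V.map (fun x => (x.2 : ℚ) / x.1)).sum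

/-- `a < b` are consecutive positions of the job `i` in the schedule `S`. -/
def Consecutive {n : ℕ} (S : ℕ → Fin n) (i : Fin n) (a b : ℕ) : Prop :=
  a < b ∧ S a = i ∧ S b = i ∧ ∀ t, a < t → t < b → S t ≠ i

open Classical in
/-- The supremum of the gaps between consecutive completions of the job `i` (infinite if the job is
executed only finitely often). -/
noncomputable def maxGap (V : Inst) (S : ℕ → Fin V.length) (i : Fin V.length) : ℕ∞ :=
  if {t | S t = i}.Finite then ⊤
  else ⨆ (a : ℕ) (b : ℕ) (_ : Consecutive S i a b),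
    ((∑ t ∈ Finset.Ioc a b, (V.get (S t)).2 : ℕ) : ℕ∞)

/-- Some schedule has all gaps of every job at most its frequency. -/
def Feasible (V : Inst) : Prop :=
  ∃ S : ℕ → Fin V.length, ∀ i, maxGap V S i ≤ ((V.get i).1 : ℕ∞)

theorem maxGap_le_iff {V : Inst} {S : ℕ → Fin V.length} {i : Fin V.length} {f : ℕ} :
    maxGap V S i ≤ (f : ℕ∞) ↔ (∀ N, ∃ t, N ≤ t ∧ S t = i) ∧
      ∀ a b, Consecutive S i a b → ∑ t ∈ Finset.Ioc a b, (V.get (S t)).2 ≤ f := by
  classical
  have hinf : (∀ N, ∃ t, N ≤ t ∧ S t = i) ↔ ¬ {t | S t = i}.Finite := by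
    constructor
    · intro h hf
      obtain ⟨B, hB⟩ := hf.bddAbove
      obtain ⟨t, ht, hti⟩ := h (B + 1)
      have := hB hti
      omega
    · intro h N
      obtain ⟨t, ht, hN⟩ := Set.Infinite.exists_gt (show {t | S t = i}.Infinite from h) N
      exact ⟨t, hN.le, ht⟩
  unfold maxGap
  split_ifs with hf
  · constructor
    · intro h
      exact absurd h (by simp)
    · rintro ⟨h, _⟩
      exact absurd hf (hinf.1 h)
  · simp only [iSup_le_iff, Nat.cast_le]
    exact ⟨fun h => ⟨hinf.2 hf, h⟩, fun h => h.2⟩

/-- The smallest frequency. -/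
def minF (V : Inst) : ℕ := (V.head?.getD (0, 0)).1

/-- The total duration of the jobs of smallest frequency. -/
def durF (V : Inst) : ℕ := ((V.filter (fun x => decide (x.1 = minF V))).map (fun x => x.2)).sum

/-- The criterion. -/
def crit (V : Inst) : Bool :=
  V.all (fun x => decide (x.1 = minF V) || decide (durF V + x.2 ≤ minF V))

theorem crit_iff (V : Inst) :
    crit V = true ↔ ∀ x ∈ V, x.1 ≠ minF V → durF V + x.2 ≤ minF V := by
  unfold crit
  rw [List.all_eq_true]
  refine forall₂_congr fun x _ => ?_
  simp only [Bool.or_eq_true, decide_eq_true_eq]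
  tauto

theorem poly_crit : Poly crit := by
  have hmin : Poly minF := Poly.fst (Poly.head?_getD Poly.id (0, 0))
  have hdur : Poly durF := by
    refine Poly.sum (Poly.map (F := fun _ (x : ℕ × ℕ) => x.2) ?_ (Poly.snd (Poly.snd Poly.id)))
    exact Poly.filter (p := fun V (x : ℕ × ℕ) => decide (x.1 = minF V)) Poly.id
      (Poly.decide_eq (Poly.fst (Poly.snd Poly.id)) (hmin.comp (Poly.fst Poly.id)))
  refine Poly.all (p := fun V (x : ℕ × ℕ) => decide (x.1 = minF V) ||
    decide (durF V + x.2 ≤ minF V)) Poly.id ?_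
  exact Poly.or (Poly.decide_eq (Poly.fst (Poly.snd Poly.id)) (hmin.comp (Poly.fst Poly.id)))
    (Poly.decide_le (Poly.add (hdur.comp (Poly.fst Poly.id)) (Poly.snd (Poly.snd Poly.id)))
      (hmin.comp (Poly.fst Poly.id)))

/-- The sum over a list as a sum over indices. -/
theorem list_sum_eq {M : Type} [AddCommMonoid M] (V : Inst) (g : ℕ × ℕ → M) :
    (V.map g).sum = ∑ i : Fin V.length, g (V.get i) := by
  rw [← List.sum_ofFn]
  congr 1
  apply List.ext_getElem
  · simp
  · intro i h1 h2
    simp

theorem durF_eq (V : Inst) : durF V = ∑ i : Fin V.length,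
    (if (V.get i).1 = minF V then (V.get i).2 else 0) := by
  unfold durF
  rw [← list_sum_eq V (fun x => if x.1 = minF V then x.2 else 0)]
  generalize minF V = c
  induction V with
  | nil => rfl
  | cons x V ih =>
    by_cases h : x.1 = c
    · simp [h, ih]
    · simp [h, ih]

theorem get_zero {V : Inst} (h0 : 0 < V.length) : (V.get ⟨0, h0⟩).1 = minF V := by
  unfold minF
  cases V with
  | nil => simp at h0
  | cons y V => simp

/-- Necessity of the criterion. -/
theorem necessity {V : Inst} (hV : Valid V) (h : Feasible V) : crit V = true := by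
  classical
  rw [crit_iff]
  obtain ⟨S, hS⟩ := h
  intro x hx hne
  obtain ⟨j, hj, hjx⟩ := List.getElem_of_mem hx
  set J : Fin V.length := ⟨j, hj⟩ with hJ
  have hJx : V.get J = x := hjx
  have h0 : 0 < V.length := List.length_pos_of_ne_nil hV.1
  set I0 : Fin V.length := ⟨0, h0⟩ with hI0
  have hI0F : (V.get I0).1 = minF V := get_zero h0
  set G : Finset (Fin V.length) := univ.filter (fun i => (V.get i).1 = minF V) with hG
  have hJG : J ∉ G := by rw [hG, mem_filter, hJx]; exact fun h => hne h.2
  have hinf : ∀ i, ∀ N, ∃ t, N ≤ t ∧ S t = i := fun i => (maxGap_le_iff.1 (hS i)).1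
  -- all jobs occur before some execution of `J`
  have hbefore : ∃ N, ∀ i : Fin V.length, ∃ t, t < N ∧ S t = i := by
    choose g hg using fun i => hinf i 0
    refine ⟨(univ.sup g) + 1, fun i => ⟨g i, ?_, (hg i).2⟩⟩
    have : g i ≤ univ.sup g := le_sup (f := g) (mem_univ i)
    omega
  obtain ⟨N, hN⟩ := hbefore
  obtain ⟨τ, hτN, hτ⟩ := hinf J N
  -- the last executions before `τ`
  have hlast : ∀ i, ∃ a, a < τ ∧ S a = i ∧ ∀ t, a < t → t < τ → S t ≠ i := by
    intro i
    obtain ⟨t, ht, hti⟩ := hN i
    have hne : ((range τ).filter (fun t => S t = i)).Nonempty :=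
      ⟨t, mem_filter.2 ⟨mem_range.2 (by omega), hti⟩⟩
    have hle : ∀ t, t < τ → S t = i →
        t ≤ ((range τ).filter (fun t => S t = i)).max' hne := fun t h1 h2 =>
      le_max' _ t (mem_filter.2 ⟨mem_range.2 h1, h2⟩)
    refine ⟨((range τ).filter (fun t => S t = i)).max' hne, ?_, ?_, ?_⟩
    · exact mem_range.1 (mem_filter.1 (max'_mem _ hne)).1
    · exact (mem_filter.1 (max'_mem _ hne)).2
    · intro t h1 h2 h3
      have := hle t h2 h3
      omega
  choose a ha1 ha2 ha3 using hlast
  obtain ⟨i0, hi0, hmin⟩ := exists_min_image G a ⟨I0, by rw [hG, mem_filter]; exact ⟨mem_univ _, hI0F⟩⟩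
  -- the next execution of `i0`
  have hnext : ∃ b, τ < b ∧ S b = i0 := by
    obtain ⟨t, ht, hti⟩ := hinf i0 (τ + 1)
    exact ⟨t, by omega, hti⟩
  set b := Nat.find hnext with hb
  have hb1 := (Nat.find_spec hnext).1
  have hb2 := (Nat.find_spec hnext).2
  have hJi0 : J ≠ i0 := fun h => hJG (h ▸ hi0)
  have hcons : Consecutive S i0 (a i0) b := by
    refine ⟨(ha1 i0).trans hb1, ha2 i0, hb2, fun t h1 h2 h3 => ?_⟩
    rcases lt_trichotomy t τ with h | rfl | h
    · exact ha3 i0 t h1 h h3
    · exact hJi0 (hτ.symm.trans h3)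
    · exact Nat.find_min hnext h2 ⟨h, h3⟩
  have hgap := (maxGap_le_iff.1 (hS i0)).2 _ _ hcons
  rw [(mem_filter.1 hi0).2] at hgap
  refine le_trans ?_ hgap
  -- the positions used
  let φ : Fin V.length → ℕ := fun i => if i = i0 then b else a i
  have hφ : ∀ i, S (φ i) = i := by
    intro i
    by_cases h : i = i0
    · simp only [φ, if_pos h]; rw [h]; exact hb2
    · simp only [φ, if_neg h]; exact ha2 i
  have hφinj : Function.Injective φ := fun i i' h => by rw [← hφ i, ← hφ i', h]
  have hτφ : τ ∉ G.image φ := by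
    intro h
    obtain ⟨i, hi, hit⟩ := mem_image.1 h
    apply hJG
    rw [← hτ, ← hit, hφ i]
    exact hi
  have hsub : insert τ (G.image φ) ⊆ Ioc (a i0) b := by
    intro t ht
    rw [mem_Ioc]
    rcases mem_insert.1 ht with rfl | ht
    · exact ⟨ha1 i0, hb1.le⟩
    · obtain ⟨i, hi, rfl⟩ := mem_image.1 ht
      by_cases h : i = i0
      · simp only [φ, if_pos h]
        exact ⟨(ha1 i0).trans hb1, le_rfl⟩
      · simp only [φ, if_neg h]
        refine ⟨lt_of_le_of_ne (hmin i hi) fun h' => ?_, ((ha1 i).trans hb1).le⟩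
        apply h
        rw [← ha2 i, ← ha2 i0, h']
  have hsum : ∑ t ∈ insert τ (G.image φ), (V.get (S t)).2 = durF V + x.2 := by
    rw [sum_insert hτφ, sum_image (fun i _ i' _ h => hφinj h), hτ, hJx, Nat.add_comm]
    congr 1
    rw [durF_eq, hG, ← sum_filter]
    exact sum_congr rfl fun i _ => by rw [hφ i]
  rw [← hsum]
  exact sum_le_sum_of_subset hsub

/-- The sum over indices as a sum over a range. -/
theorem sum_fin_eq {n : ℕ} {M : Type} [AddCommMonoid M] (g : ℕ → M) :
    ∑ i : Fin n, g i = ∑ i ∈ range n, g i := (Finset.sum_range g).symm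

/-- Sufficiency of the criterion. -/
theorem sufficiency {V : Inst} (hV : Valid V) (hdiv : FreqDiv V) (hd : density V ≤ 1 / 7)
    (h : crit V = true) : Feasible V := by
  classical
  rw [crit_iff] at h
  set n := V.length with hn
  have h0 : 0 < n := List.length_pos_of_ne_nil hV.1
  set f : ℕ → ℕ := fun i => (V.getD i (1, 1)).1 with hf
  set p : ℕ → ℕ := fun i => (V.getD i (1, 1)).2 with hp
  have hget : ∀ i : Fin n, V.getD i (1, 1) = V.get i := by
    intro i
    rw [List.getD_eq_getElem?_getD, List.getElem?_eq_getElem i.2]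
    rfl
  have hfget : ∀ i : Fin n, f i = (V.get i).1 := fun i => by rw [hf]; simp only [hget]
  have hpget : ∀ i : Fin n, p i = (V.get i).2 := fun i => by rw [hp]; simp only [hget]
  set F := minF V with hF
  have hf0 : f 0 = F := by
    rw [hfget ⟨0, h0⟩, hF]
    exact get_zero h0
  have hfpos : ∀ i < n, 0 < f i := fun i hi => by
    rw [hfget ⟨i, hi⟩]; exact (hV.2.1 _ (List.get_mem _ _)).1
  have hFpos : 0 < F := by rw [← hf0]; exact hfpos 0 h0
  have hfd : ∀ i j, i ≤ j → j < n → f i ∣ f j := by
    intro i j hij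
    induction j, hij using Nat.le_induction with
    | base => intro _; exact dvd_rfl
    | succ j hij ih =>
      intro hj
      refine (ih (by omega)).trans ?_
      have := hdiv j hj
      rw [hfget ⟨j, by omega⟩, hfget ⟨j + 1, hj⟩]
      exact this
  have hFd : ∀ i < n, F ∣ f i := fun i hi => by rw [← hf0]; exact hfd 0 i (by omega) hi
  set K : ℕ → ℕ := fun i => f i / F with hKdef
  have hfK : ∀ i < n, f i = F * K i := fun i hi => (Nat.mul_div_cancel' (hFd i hi)).symm
  have hK : ∀ i < n, 0 < K i := fun i hi => Nat.pos_of_ne_zero fun hz => by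
    have := hfK i hi; rw [hz] at this; have := hfpos i hi; omega
  have hKd : ∀ i j, i ≤ j → j < n → K i ∣ K j := fun i j hij hj =>
    Nat.div_dvd_div (hFd i (by omega)) (hfd i j hij hj)
  have hK1 : ∀ i < n, (f i = F ↔ K i = 1) := fun i hi => by
    rw [hfK i hi]
    constructor
    · intro hh; exact Nat.eq_of_mul_eq_mul_left hFpos (by rw [hh, Nat.mul_one])
    · intro hh; rw [hh, Nat.mul_one]
  set P := durF V with hP
  have hPsum : P = ∑ i ∈ range n, (if f i = F then p i else 0) := by
    rw [hP, durF_eq, ← sum_fin_eq (fun i => if f i = F then p i else 0)]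
    refine sum_congr rfl fun i _ => ?_
    rw [hfget i, hpget i]
  set q : ℕ → ℕ := fun i => if f i = F then 0 else p i with hq
  -- the density
  have hdens : ((P : ℚ) + ∑ i ∈ range n, (q i : ℚ) / K i) ≤ F / 7 := by
    have h1 : density V = ∑ i ∈ range n, (p i : ℚ) / f i := by
      unfold density
      rw [list_sum_eq V (fun x => (x.2 : ℚ) / x.1), ← sum_fin_eq (fun i => (p i : ℚ) / f i)]
      refine sum_congr rfl fun i _ => ?_
      rw [hfget i, hpget i]
    have hFq : (0 : ℚ) < F := by exact_mod_cast hFpos
    have h2 : (F : ℚ) * density V = P + ∑ i ∈ range n, (q i : ℚ) / K i := by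
      rw [h1, hPsum, mul_sum, Nat.cast_sum, ← sum_add_distrib]
      refine sum_congr rfl fun i hi => ?_
      have hi := mem_range.1 hi
      have hKq : (0 : ℚ) < K i := by exact_mod_cast hK i hi
      have h3 : (f i : ℚ) = F * K i := by exact_mod_cast hfK i hi
      by_cases hfi : f i = F
      · simp only [hq, if_pos hfi, h3, (hK1 i hi).1 hfi]
        field_simp
        simp
      · simp only [hq, if_neg hfi, h3]
        field_simp
        simp
    rw [← h2]
    nlinarith
  have hsum0 : (0 : ℚ) ≤ ∑ i ∈ range n, (q i : ℚ) / K i :=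
    sum_nonneg fun i _ => by positivity
  have h7P : 7 * P ≤ F := by
    have : (7 : ℚ) * P ≤ F := by linarith
    exact_mod_cast this
  set C := F - P with hC
  have hCpos : 0 < C := by omega
  have hqC : ∀ i < n, q i ≤ C := by
    intro i hi
    by_cases hfi : f i = F
    · simp [hq, hfi]
    · simp only [hq, if_neg hfi]
      have := h (V.get ⟨i, hi⟩) (List.get_mem _ _) (by rw [← hfget ⟨i, hi⟩]; exact hfi)
      rw [← hpget ⟨i, hi⟩] at this
      have e : ((⟨i, hi⟩ : Fin n) : ℕ) = i := rfl
      rw [e] at this
      omega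
  have hD : ∀ m < n, 6 * ∑ i ∈ range m, q i * (K m / K i) ≤ K m * C := by
    intro m hm
    have hle : ∑ i ∈ range m, (q i : ℚ) / K i ≤ ∑ i ∈ range n, (q i : ℚ) / K i :=
      sum_le_sum_of_subset_of_nonneg (range_subset_range.2 hm.le) fun i _ _ => by positivity
    have hKm : (0 : ℚ) < K m := by exact_mod_cast hK m hm
    have h3 : ((∑ i ∈ range m, q i * (K m / K i) : ℕ) : ℚ) =
        K m * ∑ i ∈ range m, (q i : ℚ) / K i := by
      rw [Nat.cast_sum, mul_sum]
      refine sum_congr rfl fun i hi => ?_
      have hi := mem_range.1 hi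
      have hKi : (K i : ℚ) ≠ 0 := by have := hK i (by omega); positivity
      rw [Nat.cast_mul, Nat.cast_div (hKd i m hi.le hm) hKi]
      ring
    have hCq : (C : ℚ) = F - P := by
      rw [hC, Nat.cast_sub (by omega)]
    have h4 : (6 : ℚ) * ((∑ i ∈ range m, q i * (K m / K i) : ℕ) : ℚ) ≤ K m * C := by
      rw [h3, hCq]
      have h5 : 6 * ∑ i ∈ range m, (q i : ℚ) / K i ≤ F - P := by
        have : (0 : ℚ) ≤ P := by positivity
        linarith
      nlinarith
    exact_mod_cast h4
  have hk₀ : ∃ k₀, 2 ≤ k₀ ∧ ∀ i < n, q i = 0 ∨ k₀ ∣ K i := by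
    by_cases hall : ∀ i < n, f i = F
    · exact ⟨2, le_rfl, fun i hi => Or.inl (by simp only [hq, if_pos (hall i hi)])⟩
    · push Not at hall
      have hfind := Nat.find_spec hall
      have hmin := fun i hi => Nat.find_min hall (m := i) hi
      set i1 := Nat.find hall
      refine ⟨K i1, ?_, fun i hi => ?_⟩
      · have h1 := hK i1 hfind.1
        have h2 : K i1 ≠ 1 := fun h => hfind.2 ((hK1 i1 hfind.1).2 h)
        omega
      · by_cases hfi : f i = F
        · exact Or.inl (by simp only [hq, if_pos hfi])
        · right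
          refine hKd i1 i ?_ hi
          by_contra hlt
          exact hmin i (by omega) ⟨hi, hfi⟩
  obtain ⟨k₀, hk₀, h0'⟩ := hk₀
  obtain ⟨b, hb, hload⟩ := pack hCpos hk₀ hK hKd h0' hqC hD
  have htot : ∀ r, total n K b p r ≤ F := by
    intro r
    have : total n K b p r = P + ∑ i ∈ range n, (if r % K i = b i then q i else 0) := by
      unfold total
      rw [hPsum, ← sum_add_distrib]
      refine sum_congr rfl fun i hi => ?_
      have hi := mem_range.1 hi
      by_cases hfi : f i = F
      · have hKi := (hK1 i hi).1 hfi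
        have hbi := hb i hi
        rw [hKi] at hbi
        have : r % K i = b i := by rw [hKi, Nat.mod_one]; omega
        simp [hq, hfi, this]
      · simp only [hq, if_neg hfi, Nat.zero_add]
    rw [this]
    have := hload r
    omega
  refine ⟨fun t => ⟨sched n K b t, Nat.mod_lt _ h0⟩, fun i => ?_⟩
  rw [maxGap_le_iff]
  constructor
  · intro N
    obtain ⟨t, ht, hti⟩ := sched_infinite h0 hK hb i.2 N
    exact ⟨t, ht, Fin.ext hti⟩
  · rintro s t ⟨hst, hs, ht, hcons⟩
    have hgap := sched_gap (p := p) h0 hK hb i.2 (fun i' hi' => hKd i' i hi' i.2) htot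
      (s := s) (t := t) (congrArg Fin.val hs) (fun x h1 h2 h3 => hcons x h1 h2 (Fin.ext h3))
    rw [Nat.mul_comm, ← hfK i i.2, hfget i] at hgap
    refine le_trans (le_of_eq ?_) hgap
    refine sum_congr rfl fun x _ => ?_
    exact (hpget ⟨sched n K b x, Nat.mod_lt _ h0⟩).symm

end Pool.Agent.NPC.V11230.DP

namespace Pool.Agent.Results.MP_4842e4_lc.LowDensity

open Pool.Agent.NPC Pool.Agent.NPC.V11230.DP

/-- **Divisible frequencies and density at most `1 / 7`.**  There is a polynomial-time algorithm
which, given any instance with frequency divisibility and density at most `1 / 7`, decides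
correctly whether it is feasible. -/
theorem result : ∃ A : List Bool → List Bool, PolyTime A ∧
    ∀ V : Inst, Valid V → FreqDiv V → density V ≤ 1 / 7 →
      (A (bits V) = [true] ↔ Feasible V) := by
  obtain ⟨A, hA, hA'⟩ := InPP.exists_test
    (inPP_of (P := fun V => crit V = true) poly_crit (fun V => Iff.rfl))
  refine ⟨A, hA, fun V hV hdiv hd => ?_⟩
  rw [← hA' V]
  exact ⟨sufficiency hV hdiv hd, necessity hV⟩

end Pool.Agent.Results.MP_4842e4_lc.LowDensity
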